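import Mathlib
import Pool.Agent.R341.Rou

set_option autoImplicit false

/-!
# Zeros in the unit disc, Mahler measure and sums with bounded coefficients
-/

namespace Pool.Agent.N673.Flat

open Polynomial Real

/-- zeros in the open unit disc -/
noncomputable abbrev nz (f : ℂ[X]) : ℕ := Pool.Agent.R341.Rou.nz 1 f

/-- lower bound for the Mahler measure -/
theorem le_mahler (p : ℂ[X]) (m : ℝ) (hm : 0 < m) (h : ∀ z : ℂ, ‖z‖ = 1 → m ≤ ‖p.eval z‖) :
    m ≤ p.mahlerMeasure := by
  have hp : p ≠ 0 := by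
    rintro rfl
    have := h 1 (by simp)
    simp at this
    linarith
  rw [mahlerMeasure_def_of_ne_zero hp]
  rw [← Real.log_le_iff_le_exp hm]
  have h1 : (2 * π)⁻¹ * ∫ (x : ℝ) in (0)..(2 * π), Real.log m = Real.log m := by
    rw [intervalIntegral.integral_const, sub_zero, smul_eq_mul, ← mul_assoc,
      inv_mul_cancel₀ (by positivity), one_mul]
  rw [← h1]
  apply mul_le_mul_of_nonneg_left _ (by positivity)
  apply intervalIntegral.integral_mono_on (by positivity)
  · exact intervalIntegrable_const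
  · exact p.intervalIntegrable_mahlerMeasure
  · intro x _
    apply Real.log_le_log hm
    apply h
    simp

theorem prod_le (s : Multiset ℂ) (R : ℝ) (hR : 0 < R) (hR1 : R < 1) :
    (s.map (fun a => max 1 ‖a‖)).prod *
        R ^ (by classical exact (s.filter (fun z => ‖z‖ < 1)).card : ℕ) ≤
      (s.map (fun a => max R ‖a‖)).prod := by
  classical
  induction s using Multiset.induction_on with
  | empty => simp
  | cons a s ih =>
    have hpos : 0 ≤ (s.map (fun a => max R ‖a‖)).prod := by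
      apply Multiset.prod_nonneg
      intro x hx
      obtain ⟨b, -, rfl⟩ := Multiset.mem_map.1 hx
      exact le_max_of_le_left hR.le
    have hpos' : 0 ≤ (s.map (fun a => max 1 ‖a‖)).prod := by
      apply Multiset.prod_nonneg
      intro x hx
      obtain ⟨b, -, rfl⟩ := Multiset.mem_map.1 hx
      exact le_max_of_le_left zero_le_one
    simp only [Multiset.map_cons, Multiset.prod_cons]
    by_cases ha : ‖a‖ < 1
    · rw [Multiset.filter_cons_of_pos (p := fun z : ℂ => ‖z‖ < 1) s ha, Multiset.card_cons,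
        pow_succ, max_eq_left ha.le]
      calc 1 * (s.map (fun a => max 1 ‖a‖)).prod *
            (R ^ (s.filter (fun z => ‖z‖ < 1)).card * R)
          = R * ((s.map (fun a => max 1 ‖a‖)).prod *
            R ^ (s.filter (fun z => ‖z‖ < 1)).card) := by ring
        _ ≤ max R ‖a‖ * (s.map (fun a => max R ‖a‖)).prod := by
            apply mul_le_mul (le_max_left _ _) ih
            · exact mul_nonneg hpos' (by positivity)
            · exact le_max_of_le_left hR.le
    · rw [Multiset.filter_cons_of_neg (p := fun z : ℂ => ‖z‖ < 1) s ha,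
        max_eq_right (not_lt.1 ha)]
      calc ‖a‖ * (s.map (fun a => max 1 ‖a‖)).prod *
            R ^ (s.filter (fun z => ‖z‖ < 1)).card
          = ‖a‖ * ((s.map (fun a => max 1 ‖a‖)).prod *
            R ^ (s.filter (fun z => ‖z‖ < 1)).card) := by ring
        _ ≤ max R ‖a‖ * (s.map (fun a => max R ‖a‖)).prod := by
            apply mul_le_mul (le_max_right _ _) ih
            · exact mul_nonneg hpos' (by positivity)
            · exact le_max_of_le_left hR.le

/-- Mahler measure of the dilated polynomial -/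
theorem mahler_comp (p : ℂ[X]) (R : ℝ) (hR : 0 < R) :
    (p.comp (C (R : ℂ) * X)).mahlerMeasure =
      ‖p.leadingCoeff‖ * (p.roots.map (fun a => max R ‖a‖)).prod := by
  by_cases hp : p = 0
  · simp [hp]
  conv_lhs => rw [(IsAlgClosed.splits p).eq_prod_roots]
  rw [mul_comp, C_comp, multiset_prod_comp, mahlerMeasure_mul, mahlerMeasure_const,
    prod_mahlerMeasure_eq_mahlerMeasure_prod, Multiset.map_map, Multiset.map_map]
  congr 2
  apply Multiset.map_congr rfl
  intro a _
  simp only [Function.comp_apply, sub_comp, X_comp, C_comp]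
  have : C (R : ℂ) * X - C a = C (R : ℂ) * X + C (-a) := by
    rw [map_neg, sub_eq_add_neg]
  rw [this, mahlerMeasure_C_mul_X_add_C (by exact_mod_cast hR.ne'), norm_neg]
  simp [abs_of_pos hR]

/-- The Mahler measure of a polynomial with coefficients of absolute value at most one and `w`
zeros in the open unit disc is at most `R^(-w) (1 - R²)^(-1/2)`. -/
theorem mahler_le (p : ℂ[X]) (h : ∀ i, ‖p.coeff i‖ ≤ 1) (R : ℝ) (hR : 0 < R) (hR1 : R < 1) :
    p.mahlerMeasure * R ^ nz p ≤ √(1 / (1 - R ^ 2)) := by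
  classical
  have h1 : p.mahlerMeasure * R ^ nz p ≤ (p.comp (C (R : ℂ) * X)).mahlerMeasure := by
    rw [mahler_comp p R hR, mahlerMeasure_eq_leadingCoeff_mul_prod_roots, mul_assoc]
    apply mul_le_mul_of_nonneg_left _ (norm_nonneg _)
    have := prod_le p.roots R hR hR1
    unfold nz Pool.Agent.R341.Rou.nz
    exact this
  refine h1.trans ((mahlerMeasure_le_sqrt_sum_sq_norm_coeff _).trans (Real.sqrt_le_sqrt ?_))
  have h2 : ∀ i, (p.comp (C (R : ℂ) * X)).coeff i = p.coeff i * (R : ℂ) ^ i := by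
    intro i
    rw [comp_C_mul_X_coeff]
  have hR2 : R ^ 2 < 1 := by nlinarith
  calc ∑ i ∈ (p.comp (C (R : ℂ) * X)).support, ‖(p.comp (C (R : ℂ) * X)).coeff i‖ ^ 2
      ≤ ∑ i ∈ (p.comp (C (R : ℂ) * X)).support, (R ^ 2) ^ i := by
        apply Finset.sum_le_sum
        intro i _
        rw [h2, norm_mul, norm_pow, Complex.norm_real, Real.norm_eq_abs, abs_of_pos hR, mul_pow,
          ← pow_mul, ← pow_mul, mul_comm 2 i]
        have := h i
        have h3 : ‖p.coeff i‖ ^ 2 ≤ 1 := pow_le_one₀ (norm_nonneg _) this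
        have h4 : 0 ≤ R ^ (i * 2) := by positivity
        nlinarith
    _ ≤ ∑' i : ℕ, (R ^ 2) ^ i :=
        (summable_geometric_of_lt_one (by positivity) hR2).sum_le_tsum _ (fun i _ => by positivity)
    _ = 1 / (1 - R ^ 2) := by
        rw [tsum_geometric_of_lt_one (by positivity) hR2, one_div]

/-- The Mahler measure of a polynomial with coefficients of absolute value at most one and `w`
zeros in the open unit disc is at most `(e (w + 1))^(1/2)`. -/
theorem mahler_le' (p : ℂ[X]) (h : ∀ i, ‖p.coeff i‖ ≤ 1) :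
    p.mahlerMeasure ≤ √(Real.exp 1 * (nz p + 1)) := by
  have he : (2 : ℝ) ≤ Real.exp 1 := by
    have := Real.add_one_le_exp (1 : ℝ)
    linarith
  rcases Nat.eq_zero_or_pos (nz p) with h0 | h0
  · have h1 := mahler_le p h (√(1 / 2)) (by positivity) (by
      rw [Real.sqrt_lt' (by norm_num)]
      norm_num)
    rw [h0, pow_zero, mul_one, Real.sq_sqrt (by norm_num)] at h1
    refine h1.trans (Real.sqrt_le_sqrt ?_)
    rw [h0]
    norm_num
    exact he
  · set w : ℕ := nz p with hw
    have hw0 : (0 : ℝ) < w := by exact_mod_cast h0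
    set R : ℝ := √((w : ℝ) / (w + 1)) with hR
    have hq : (0 : ℝ) < (w : ℝ) / (w + 1) := by positivity
    have hq1 : (w : ℝ) / (w + 1) < 1 := by
      rw [div_lt_one (by positivity)]
      linarith
    have hR0 : 0 < R := Real.sqrt_pos.2 hq
    have hR1 : R < 1 := by
      rw [hR, Real.sqrt_lt' (by norm_num)]
      simpa using hq1
    have h1 := mahler_le p h R hR0 hR1
    have hRsq : R ^ 2 = (w : ℝ) / (w + 1) := Real.sq_sqrt hq.le
    have h2 : 1 / (1 - R ^ 2) = w + 1 := by
      rw [hRsq]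
      field_simp
      ring
    rw [h2] at h1
    have hM0 := p.mahlerMeasure_nonneg
    apply Real.le_sqrt_of_sq_le
    have h3 : (p.mahlerMeasure * R ^ w) ^ 2 ≤ w + 1 := by
      have := Real.sq_sqrt (show (0 : ℝ) ≤ w + 1 by positivity)
      rw [← this]
      exact pow_le_pow_left₀ (mul_nonneg hM0 (by positivity)) h1 2
    have h4 : (p.mahlerMeasure * R ^ w) ^ 2 = p.mahlerMeasure ^ 2 * (R ^ 2) ^ w := by ring
    rw [h4, hRsq] at h3
    have h5 : ((w + 1 : ℝ) / w) ^ w ≤ Real.exp 1 := by
      have h6 : (w + 1 : ℝ) / w ≤ Real.exp (1 / w) := by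
        have := Real.add_one_le_exp (1 / (w : ℝ))
        have h7 : (w + 1 : ℝ) / w = 1 / w + 1 := by field_simp; ring
        rw [h7]
        exact this
      calc ((w + 1 : ℝ) / w) ^ w ≤ (Real.exp (1 / w)) ^ w := pow_le_pow_left₀ (by positivity) h6 w
        _ = Real.exp 1 := by
            rw [← Real.exp_nat_mul]
            congr 1
            field_simp
    have h8 : ((w : ℝ) / (w + 1)) ^ w * ((w + 1 : ℝ) / w) ^ w = 1 := by
      rw [← mul_pow]
      have : (w : ℝ) / (w + 1) * ((w + 1) / w) = 1 := by field_simp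
      rw [this, one_pow]
    have h9 : 0 ≤ ((w + 1 : ℝ) / w) ^ w := by positivity
    calc p.mahlerMeasure ^ 2
        = p.mahlerMeasure ^ 2 * ((w : ℝ) / (w + 1)) ^ w * ((w + 1 : ℝ) / w) ^ w := by
          rw [mul_assoc, h8, mul_one]
      _ ≤ (w + 1) * ((w + 1 : ℝ) / w) ^ w := mul_le_mul_of_nonneg_right h3 h9
      _ ≤ (w + 1) * Real.exp 1 := mul_le_mul_of_nonneg_left h5 (by positivity)
      _ = Real.exp 1 * (w + 1) := by ring

/-- the polynomial `∑_{n < N} a(n + 1) X ^ n` -/
noncomputable def P (a : ℕ → ℂ) (N : ℕ) : ℂ[X] := ∑ n ∈ Finset.range N, C (a (n + 1)) * X ^ n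

theorem P_succ (a : ℕ → ℂ) (N : ℕ) : P a (N + 1) = P a N + C (a (N + 1)) * X ^ N := by
  unfold P
  rw [Finset.sum_range_succ]

theorem P_coeff (a : ℕ → ℂ) (N i : ℕ) : (P a N).coeff i = if i < N then a (i + 1) else 0 := by
  unfold P
  rw [finsetSum_coeff]
  simp only [coeff_C_mul, coeff_X_pow]
  simp

theorem nz_le (a : ℕ → ℂ) (N : ℕ) (hN : 1 ≤ N) : nz (P a N) + 1 ≤ N := by
  classical
  have h1 : nz (P a N) ≤ (P a N).natDegree := by
    unfold nz Pool.Agent.R341.Rou.nz
    exact (Multiset.card_le_card (Multiset.filter_le _ _)).trans (card_roots' _)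
  have h2 : (P a N).natDegree ≤ N - 1 := by
    rw [natDegree_le_iff_coeff_eq_zero]
    intro i hi
    rw [P_coeff, if_neg (by omega)]
  omega

/-- **Main inequality.** If `|P_N| > 1` on the unit circle for all `N₀ ≤ N < N₁`, then the minimum
of `|P_{N₁}|` on the unit circle is at most `(e N₀)^(1/2)`. -/
theorem main (a : ℕ → ℂ) (ha : ∀ n, ‖a n‖ ≤ 1) (N₀ N₁ : ℕ) (h0 : 1 ≤ N₀) (h01 : N₀ ≤ N₁)
    (h : ∀ N, N₀ ≤ N → N < N₁ → ∀ z : ℂ, ‖z‖ = 1 → 1 < ‖(P a N).eval z‖) (m : ℝ)
    (hm : ∀ z : ℂ, ‖z‖ = 1 → m ≤ ‖(P a N₁).eval z‖) : m ≤ √(Real.exp 1 * N₀) := by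
  have key : ∀ k, N₀ + k ≤ N₁ → nz (P a (N₀ + k)) = nz (P a N₀) := by
    intro k
    induction k with
    | zero => intro _; rfl
    | succ k ih =>
      intro hk
      rw [← ih (by omega)]
      symm
      apply Pool.Agent.R341.Rou.rouche one_pos
      intro z hz
      have h1 := h (N₀ + k) (by omega) (by omega) z hz
      refine lt_of_le_of_lt ?_ h1
      have e : N₀ + (k + 1) = N₀ + k + 1 := rfl
      rw [e, P_succ, eval_add, sub_add_cancel_left, norm_neg, eval_mul, eval_C, eval_pow, eval_X,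
        norm_mul, norm_pow, hz, one_pow, mul_one]
      exact ha _
  have h2 := key (N₁ - N₀) (by omega)
  rw [show N₀ + (N₁ - N₀) = N₁ by omega] at h2
  rcases le_or_gt m 0 with hm0 | hm0
  · exact hm0.trans (Real.sqrt_nonneg _)
  refine (le_mahler _ m hm0 hm).trans ((mahler_le' (P a N₁) ?_).trans (Real.sqrt_le_sqrt ?_))
  · intro i
    rw [P_coeff]
    split_ifs
    · exact ha _
    · simp
  · rw [h2]
    have h3 := nz_le a N₀ h0
    have h4 : ((nz (P a N₀) : ℝ) + 1) ≤ N₀ := by exact_mod_cast h3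
    exact mul_le_mul_of_nonneg_left h4 (Real.exp_pos 1).le

end Pool.Agent.N673.Flat
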